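import Pool.Agent.N699.PC.Stm

/-!
Project Q3 (helper699), leaf MAIA (helper94): the Hecke type double sum from JAC, SPL, PAR, CS, PHI.
-/

set_option autoImplicit false

namespace Pool.Agent.N94.Q3

open Finset PowerSeries
open Pool.Agent.N699.PC

lemma cc_pp (m : ℕ) : constantCoeff (pp m) = 1 := by
  unfold pp
  rw [map_prod]
  refine Finset.prod_eq_one fun i _ => ?_
  rw [map_add, map_one, map_pow, constantCoeff_X, zero_pow (by omega), add_zero]

lemma pp_iv (m : ℕ) : pp m * iv (pp m) = 1 := by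
  unfold iv
  exact mul_invOfUnit _ _ (by rw [cc_pp, Units.val_one])

lemma S_eq (hJ : JAC) (hS : SPL) (M : ℕ) :
    S M = ∑ k ∈ range M, C (w k) * (-1) ^ k * X ^ (k ^ 2 + 1) * F k M := by
  unfold S
  have h1 : ∀ m ∈ range M, X ^ (2 * m + 1) * oo m ^ 2 * iv (pp m) =
      ∑ k ∈ range (m + 1), C (w k) * (-1) ^ k * X ^ (k ^ 2 + 1) *
        (X ^ (2 * m) * ee m * OO m * iv (ee (m - k)) * iv (ee (m + k))) := by
    intro m _
    rw [hJ m, Finset.mul_sum, Finset.sum_mul]
    refine Finset.sum_congr rfl fun k _ => ?_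
    rw [← hS m]
    have h2 := pp_iv m
    calc X ^ (2 * m + 1) * (C (w k) * (-1) ^ k * X ^ (k ^ 2) *
          (OO m * (ee m * pp m) * iv (ee (m - k)) * iv (ee (m + k)))) * iv (pp m)
        = C (w k) * (-1) ^ k * X ^ (k ^ 2 + 1) *
          (X ^ (2 * m) * ee m * OO m * iv (ee (m - k)) * iv (ee (m + k))) *
            (pp m * iv (pp m)) := by ring
      _ = _ := by rw [h2, mul_one]
  rw [Finset.sum_congr rfl h1]
  rw [Finset.sum_comm' (t' := range M) (s' := fun k => Ico k M)]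
  · refine Finset.sum_congr rfl fun k _ => ?_
    unfold F
    rw [Finset.mul_sum]
  · intro m k
    simp only [Finset.mem_range, Finset.mem_Ico]
    omega

theorem t_MAIA : MAIA := by
  intro hJ hS hP hC hPhi N M hNM
  have e1 : (X : ℤ⟦X⟧) ^ N ∣ oo M ^ 2 * ee M - phi M :=
    (pow_dvd_pow X (by omega)).trans (hPhi M)
  have e2 : (X : ℤ⟦X⟧) ^ N ∣ CN M * oo M ^ 2 - pp M * S M :=
    (pow_dvd_pow X (by omega)).trans (hC M)
  have e3 : (X : ℤ⟦X⟧) ^ N ∣ ee M * pp M * S M - HN N := by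
    rw [S_eq hJ hS M, Finset.mul_sum]
    unfold HN
    rw [← Finset.sum_range_add_sum_Ico _ (show N ≤ M by omega), add_sub_right_comm,
      ← Finset.sum_sub_distrib]
    refine dvd_add (Finset.dvd_sum fun k hk => ?_) (Finset.dvd_sum fun k hk => ?_)
    · have hk' := Finset.mem_range.1 hk
      have h1 := hP N k M (by omega)
      have h2 : ee M * pp M * (C (w k) * (-1) ^ k * X ^ (k ^ 2 + 1) * F k M) -
          C (w k) * (-1) ^ k * X ^ (k ^ 2 + 1) * A k N =
          C (w k) * (-1) ^ k * X ^ (k ^ 2 + 1) * (ee M * pp M * F k M - A k N) := by ring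
      rw [h2]
      exact Dvd.dvd.mul_left h1 _
    · have hk' := Finset.mem_Ico.1 hk
      have h3 : N ≤ k ^ 2 + 1 := by nlinarith [hk'.1]
      have h2 : ee M * pp M * (C (w k) * (-1) ^ k * X ^ (k ^ 2 + 1) * F k M) =
          X ^ (k ^ 2 + 1) * (ee M * pp M * (C (w k) * (-1) ^ k * F k M)) := by ring
      rw [h2]
      exact Dvd.dvd.mul_right (pow_dvd_pow X h3) _
  have h : CN M * phi M - HN N = (ee M * pp M * S M - HN N) +
      ee M * (CN M * oo M ^ 2 - pp M * S M) - CN M * (oo M ^ 2 * ee M - phi M) := by ring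
  rw [h]
  exact dvd_sub (dvd_add e3 (Dvd.dvd.mul_left e2 _)) (Dvd.dvd.mul_left e1 _)

end Pool.Agent.N94.Q3
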