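import Pool.Agent.Y84.PG.F
import Pool.Agent.Y84.PC.D
import Pool.Agent.H26R2.Bass.Main

set_option autoImplicit false
set_option linter.unusedSectionVars false

/-! Locally detected elements of infinite order: vanishing of the Hattori-Stallings rank in
characteristic zero. -/

namespace Pool.Agent.N94.BassDet

open Matrix
open Pool.Agent.Y84.PT (supp mem_supp mapDomain_mul_of exists_coeff_finset exists_spec
  exists_common_denom)
open Pool.Agent.Y84.PG

universe u v w

/-- detection on the finite set `W`, with a power `m` -/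
def DetOn {G : Type u} [Group G] (g : G) (W : Finset G) (m : ℕ) : Prop :=
  ∃ (H : Type u) (_ : Group H) (f : G → H) (Q : Type) (_ : Group Q) (_ : Finite Q)
    (π : Subgroup.centralizer ({f g} : Set H) →* Q) (z : Subgroup.centralizer ({f g} : Set H)),
    (∀ x ∈ W, ∀ y ∈ W, f (x * y) = f x * f y) ∧ (z : H) = f g ∧ π z ^ m ≠ 1

/-- locally detected elements of infinite order -/
def LocDet {G : Type u} [Group G] (g : G) : Prop :=
  ∀ (W : Finset G) (m : ℕ), m ≠ 0 → DetOn g W m

section

variable {G : Type u} [Group G] {K : Type v} [Field K] [CharZero K]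
variable {κ : Type w} [Fintype κ] [DecidableEq κ]

/-- the projection of the centraliser of `(a, b)` -/
def cenFst {H : Type*} {G : Type*} [Group H] [Group G] (a : H) (b : G) :
    Subgroup.centralizer ({(a, b)} : Set (H × G)) →* Subgroup.centralizer ({a} : Set H) :=
  ((MonoidHom.fst H G).comp (Subgroup.subtype _)).codRestrict _ (fun z => by
    rw [Subgroup.mem_centralizer_singleton_iff]
    have h := Subgroup.mem_centralizer_singleton_iff.1 z.2
    exact congrArg Prod.fst h)

theorem tr_zero_det_integral {E : Matrix κ κ (MonoidAlgebra K G)} (hE : E * E = E) {N : ℕ}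
    (hN : N ≠ 0) (hint : ∀ i j g, IsIntegral ℤ ((N : K) * (E i j).coeff g)) {g : G}
    (hg : ∀ W : Finset G, DetOn g W (N ^ 2)) :
    tr (cls g) E = 0 := by
  classical
  have hc : ∀ h : G, ∃ c : G, IsConj g h → c * g * c⁻¹ = h := by
    intro h
    by_cases hh : IsConj g h
    · obtain ⟨c, hc⟩ := isConj_iff.1 hh
      exact ⟨c, fun _ => hc⟩
    · exact ⟨1, fun h' => absurd h' hh⟩
  choose c hc using hc
  obtain ⟨H, iH, f, Q, i1, i2, π, z, hmul, hz, hne⟩ := hg (insert g (supp E ∪ (supp E).image c))
  have hW1 : ∀ h ∈ supp E, h ∈ insert g (supp E ∪ (supp E).image c) := fun h hh =>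
    Finset.mem_insert_of_mem (Finset.mem_union_left _ hh)
  have hW2 : ∀ h ∈ supp E, c h ∈ insert g (supp E ∪ (supp E).image c) := fun h hh =>
    Finset.mem_insert_of_mem (Finset.mem_union_right _ (Finset.mem_image_of_mem _ hh))
  have hW3 : g ∈ insert g (supp E ∪ (supp E).image c) := Finset.mem_insert_self _ _
  let F : G → H × G := fun h => (f h, h)
  have hF : Function.Injective F := fun a b hab => (Prod.mk.inj hab).2
  have hidem : E.map (MonoidAlgebra.mapDomain F) * E.map (MonoidAlgebra.mapDomain F) =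
      E.map (MonoidAlgebra.mapDomain F) := by
    apply push_idem hE
    intro x hx y hy
    exact Prod.ext (hmul x (hW1 x hx) y (hW1 y hy)) rfl
  have hint' : ∀ i j z, IsIntegral ℤ ((N : K) *
      ((E.map (MonoidAlgebra.mapDomain F)) i j).coeff z) := by
    intro i j z
    change IsIntegral ℤ ((N : K) * (Finsupp.mapDomain F (E i j).coeff) z)
    by_cases hz : z ∈ Set.range F
    · obtain ⟨h, rfl⟩ := hz
      rw [Finsupp.mapDomain_apply hF]
      exact hint i j h
    · rw [Finsupp.mapDomain_of_notMem_range _ _ hz, mul_zero]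
      exact isIntegral_zero
  have h1 : tr (cls ((f g, g) : H × G)) (E.map (MonoidAlgebra.mapDomain F)) = 0 := by
    refine Pool.Agent.Y84.PC.tr_zero_of_integral hidem hN hint' ((f g, g) : H × G)
      (π.comp (cenFst (f g) g)) rfl ?_
    have h2 : cenFst (f g) g ⟨(f g, g), Subgroup.mem_centralizer_singleton_iff.2 rfl⟩ = z :=
      Subtype.ext hz.symm
    rw [MonoidHom.comp_apply, h2]
    exact hne
  rw [← h1, tr_apply, tr_apply]
  refine Finset.sum_congr rfl (fun i _ => ?_)
  rw [Matrix.map_apply, T_mapDomain]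
  apply T_congr
  intro h hh
  have hsupp : h ∈ supp E := mem_supp hh
  constructor
  · intro h2
    have h3 := hc h h2
    have h4 : h * c h = c h * g := (mul_inv_eq_iff_eq_mul.1 h3).symm
    have h5 : f h * f (c h) = f (c h) * f g := by
      rw [← hmul h (hW1 h hsupp) (c h) (hW2 h hsupp), h4,
        hmul (c h) (hW2 h hsupp) g hW3]
    change IsConj (f g, g) (f h, h)
    refine isConj_iff.2 ⟨(f (c h), c h), Prod.ext ?_ h3⟩
    change f (c h) * f g * (f (c h))⁻¹ = f h
    rw [← h5]; group
  · intro h2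
    obtain ⟨⟨a, b⟩, h3⟩ := isConj_iff.1 h2
    exact isConj_iff.2 ⟨b, congrArg Prod.snd h3⟩

/-- fields of characteristic zero -/
theorem tr_zero_det {E : Matrix κ κ (MonoidAlgebra K G)} (hE : E * E = E) {g : G}
    (hg : LocDet g) : tr (cls g) E = 0 := by
  classical
  by_contra hx
  set x : K := tr (cls g) E with hxdef
  obtain ⟨U, hU⟩ := exists_coeff_finset E
  obtain ⟨R, hUR, ⟨ψ⟩⟩ := exists_spec (K := K) (AlgebraicClosure ℚ)
    ((insert x⁻¹ U : Finset K) : Set K) (Finset.finite_toSet _)
  have hmem : ∀ i j g, (E i j).coeff g ∈ R := by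
    intro i j g
    exact hUR (by exact_mod_cast Finset.mem_insert_of_mem (hU i j g))
  have hxinv : x⁻¹ ∈ R := hUR (by exact_mod_cast Finset.mem_insert_self _ _)
  have halg : Algebra.IsAlgebraic ℚ (AlgebraicClosure ℚ) := AlgebraicClosure.isAlgebraic ℚ
  obtain ⟨E₀, hE₀, hE₀E⟩ := exists_lift (algebraMap R K) Subtype.val_injective hE
    (fun i j g => ⟨⟨_, hmem i j g⟩, rfl⟩)
  have hE₁ := idem_map ψ hE₀
  set E₁ := E₀.map (MonoidAlgebra.mapRingHom G ψ) with hE₁def
  obtain ⟨U₁, hU₁⟩ := exists_coeff_finset E₁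
  obtain ⟨N, hN, hNint⟩ := exists_common_denom (L := AlgebraicClosure ℚ) U₁
  have h0 : tr (cls g) E₁ = 0 :=
    tr_zero_det_integral hE₁ hN (fun i j h => hNint _ (hU₁ i j h))
      (fun W => hg W (N ^ 2) (pow_ne_zero _ hN))
  rw [hE₁def, tr_map] at h0
  have h1 : algebraMap R K (tr (cls g) E₀) = x := by
    rw [← tr_map, hE₀E]
  have h2 : tr (cls g) E₀ * ⟨x⁻¹, hxinv⟩ = 1 := by
    apply Subtype.val_injective
    change algebraMap R K (tr (cls g) E₀) * x⁻¹ = 1
    rw [h1]
    exact mul_inv_cancel₀ hx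
  have h3 := congrArg ψ h2
  rw [map_mul, h0, zero_mul, map_one] at h3
  exact zero_ne_one h3

end

section Domain

variable {G : Type u} [Group G] {R : Type v} [CommRing R] [IsDomain R] [CharZero R] {n : ℕ}

theorem tau_zero {A : Matrix (Fin n) (Fin n) (MonoidAlgebra R G)} (hA : A * A = A) {g : G}
    (hg : LocDet g) : Pool.Agent.H26R2.Bass.tau A g = 0 := by
  have hK : CharZero (FractionRing R) :=
    charZero_of_injective_algebraMap (IsFractionRing.injective R (FractionRing R))
  have h1 := tr_zero_det (idem_map (algebraMap R (FractionRing R)) hA) hg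
  rw [tr_map] at h1
  have h2 : tr (cls g) A = 0 := (IsFractionRing.injective R (FractionRing R)) (by rw [h1, map_zero])
  rw [← h2, tr_apply]
  unfold Pool.Agent.H26R2.Bass.tau
  exact Finset.sum_congr rfl (fun i _ => (T_cls_eq g _).symm)

/-- the conjecture, if all elements of infinite order are locally detected or not almost
divisible in finitely generated subgroups -/
theorem bass_of_det
    (hG : ∀ H : Subgroup G, H.FG → ∀ h : H, ¬ IsOfFinOrder h →
      LocDet h ∨ ¬ Pool.Agent.H26R2.IdemLI.AlmostDiv h)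
    {A : Matrix (Fin n) (Fin n) (MonoidAlgebra R G)} (hA : A * A = A) (g : G)
    (hg : ¬ IsUnit ((orderOf g : ℕ) : R)) : Pool.Agent.H26R2.Bass.tau A g = 0 := by
  rw [Pool.Agent.H26R2.Bass.tau_eq]
  by_cases hfin : orderOf g = 0
  · by_contra hne
    obtain ⟨H, hH, B, hB, h, hconj, hne'⟩ := Pool.Agent.H26R2.Bass.exists_local A hA g hne
    have hord : ¬ IsOfFinOrder h := by
      intro hfo
      have h0 : IsOfFinOrder (h : G) := by
        obtain ⟨m, hm, hm1⟩ := isOfFinOrder_iff_pow_eq_one.1 hfo
        exact isOfFinOrder_iff_pow_eq_one.2 ⟨m, hm, by rw [← Subgroup.coe_pow, hm1]; rfl⟩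
      have h1 : orderOf (h : G) = orderOf g := by
        obtain ⟨c, hc⟩ := isConj_iff.1 hconj
        rw [← hc]
        exact (orderOf_injective (MulAut.conj c).toMonoidHom (MulAut.conj c).injective (h : G)).symm
      have h2 := orderOf_pos_iff.2 h0
      omega
    rcases hG H hH h hord with h1 | h1
    · apply hne'
      rw [← Pool.Agent.H26R2.Bass.tau_eq]
      exact tau_zero hB h1
    · exact h1 (Pool.Agent.H26R2.Bass.almostDiv_of_tf B hB h hne')
  · exact Pool.Agent.H26R2.Bass.tf_zero_of_finite A hA g hfin hg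

end Domain

end Pool.Agent.N94.BassDet
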